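import Pool.Agent.Helper78.OE.GoalsC3

/-!
# Project OE, packet TRL: the bijection of 5.4 under the law (*)
-/

open MeasureTheory Pool.Agent.Helper73.OE Pool.Agent.Helper78.OE
open scoped ENNReal

namespace Pool.Agent.Helper33.OE

variable {H S L : Type} [Group H] (X : Sys H S L)

section loc

variable [Fintype L]

/-- The results of the tripod moves agree on a ball. -/
theorem agr_TRi (hL : LOCB X) {P : Par} {O O' : Edges H S} {f f' : Cfg H S L} {v : H} {R : ℕ}
    (hR : 10 * (P.J + P.M + 10) ≤ R) (h : Agr X (X.ball v R) O O' f f') (i : Fin P.J × L)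
    (p : S) (y : L) :
    Agr X (X.ball v (2 * P.J + P.M + 1)) O O' (X.TRi P O i v p y f)
      (X.TRi P O' i v p y f') := by
  refine ⟨fun z hz => ?_, fun z r hz hr => ?_⟩
  · unfold Sys.TRi
    refine (hL O O' f f' v R h p y i.2).2.2.2.2 _ z ?_
    rw [X.mem_ball] at hz
    have := i.1.isLt
    omega
  · exact h.2 z r (X.ball_mono v (by omega) hz) (X.ball_mono v (by omega) hr)

/-- The left functional. -/
noncomputable def Fa (P : Par) (v : H) (s : S) (x y : L) (i : Fin P.J × L) (ψ : ℕ → ℝ≥0∞)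
    (O : Edges H S) (f : Cfg H S L) : ℝ≥0∞ :=
  ind (i ∈ X.AS P O f v s y) * ψ (X.AS P O (X.TRi P O i v s y f) v s x).card

/-- The right functional. -/
noncomputable def Fb (P : Par) (v : H) (s : S) (x : L) (i : Fin P.J × L) (ψ : ℕ → ℝ≥0∞)
    (O : Edges H S) (f : Cfg H S L) : ℝ≥0∞ :=
  ind (i ∈ X.AS P O f v s x) * ψ (X.AS P O f v s x).card

theorem Fa_loc (hL : LOCB X) {P : Par} {O O' : Edges H S} {f f' : Cfg H S L} {v : H} {R : ℕ}
    (hR : 10 * (P.J + P.M + 10) ≤ R) (h : Agr X (X.ball v R) O O' f f') (s : S) (x y : L)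
    (i : Fin P.J × L) (ψ : ℕ → ℝ≥0∞) :
    Fa X P v s x y i ψ O f = Fa X P v s x y i ψ O' f' := by
  unfold Fa
  rw [(hL O O' f f' v R h s y y).2.2.1 P (by omega),
    (hL O O' _ _ v _ (agr_TRi X hL hR h i s y) s x x).2.2.1 P le_rfl]

theorem Fb_loc (hL : LOCB X) {P : Par} {O O' : Edges H S} {f f' : Cfg H S L} {v : H} {R : ℕ}
    (hR : 10 * (P.J + P.M + 10) ≤ R) (h : Agr X (X.ball v R) O O' f f') (s : S) (x : L)
    (i : Fin P.J × L) (ψ : ℕ → ℝ≥0∞) :
    Fb X P v s x i ψ O f = Fb X P v s x i ψ O' f' := by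
  unfold Fb
  rw [(hL O O' f f' v R h s x x).2.2.1 P (by omega)]

end loc

theorem meas_Gxy {b : (unitInterval × unitInterval) × (unitInterval × unitInterval) → ℝ≥0∞}
    (hb : Measurable b) (v : H) (s : S) (x y : L) :
    Measurable (fun w : St H S L => Gxy X b v s x y w) := by
  unfold Gxy
  refine Measurable.mul (hb.comp (Measurable.prodMk
    ((measurable_pi_apply _).comp measurable_snd)
    ((measurable_pi_apply _).comp measurable_snd))) (Measurable.mul ?_ ?_)
  · apply measurable_ind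
    have h1 : Measurable fun w : St H S L => w.1 v := (measurable_pi_apply v).comp measurable_fst
    have h2 : MeasurableSet ({σ : S ≃ L | σ s = x}) := trivial
    exact h1 h2
  · apply measurable_ind
    have h1 : Measurable fun w : St H S L => w.1 (X.nb v s) :=
      (measurable_pi_apply _).comp measurable_fst
    have h2 : MeasurableSet ({σ : S ≃ L | X.tau (σ (X.bar s)) = y}) := trivial
    exact h1 h2

/-- The bijection of 5.4 under the law (*). -/
theorem trl [Fintype S] [Fintype L] {ε : ℝ} {μ : Measure (St H S L)} (C : Ctx X ε μ)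
    (hB : Pool.Agent.Helper75.OE.A_TRB) (hT : Pool.Agent.Helper75.OE.A_TLOC) : TRL X ε μ := by
  intro b hb hb0 P v s x y i ψ hxy
  obtain ⟨R, hR⟩ : ∃ R : ℕ, R = 10 * (P.J + P.M + 10) := ⟨_, rfl⟩
  have hfin := X.finite_ball v R
  obtain ⟨Λ, hΛ⟩ : ∃ Λ : Finset H, (Λ : Set H) = X.ball v R := ⟨hfin.toFinset, hfin.coe_toFinset⟩
  have hmem : ∀ z, z ∈ Λ ↔ X.dist v z ≤ R := by
    intro z
    rw [← Finset.mem_coe, hΛ, X.mem_ball]
  have hPC : X.PC v (Λ : Set H) := by
    rw [hΛ]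
    exact X.PC_ball v R
  have hvΛ : v ∈ Λ := by
    rw [hmem, X.dist_self]
    exact Nat.zero_le _
  have hwΛ : X.nb v s ∈ Λ := by
    rw [hmem, X.dist_nb_self]
    omega
  have hom : ∀ᵐ w ∂μ, Om X ε w = X.Op ε w.2 :=
    C.om.mono fun w h => funext fun a => funext fun c => propext (h a c).symm
  have e1 : ∫⁻ w, Gxy X b v s x y w * (ind (i ∈ X.AS P (Om X ε w) w.1 v s y) *
        ψ (X.AS P (Om X ε w) (X.TRi P (Om X ε w) i v s y w.1) v s x).card) ∂μ =
      ∫⁻ w, Gxy X b v s x y w * Fa X P v s x y i ψ (X.Op ε w.2) w.1 ∂μ := by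
    refine lintegral_congr_ae (hom.mono fun w hw => ?_)
    show _ * (ind (i ∈ X.AS P (Om X ε w) w.1 v s y) *
        ψ (X.AS P (Om X ε w) (X.TRi P (Om X ε w) i v s y w.1) v s x).card) = _
    rw [hw]
    rfl
  have e2 : ∫⁻ w, Gxy X b v s y y w * (ind (i ∈ X.AS P (Om X ε w) w.1 v s x) *
        ψ (X.AS P (Om X ε w) w.1 v s x).card) ∂μ =
      ∫⁻ w, Gxy X b v s y y w * Fb X P v s x i ψ (X.Op ε w.2) w.1 ∂μ := by
    refine lintegral_congr_ae (hom.mono fun w hw => ?_)
    show _ * (ind (i ∈ X.AS P (Om X ε w) w.1 v s x) *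
        ψ (X.AS P (Om X ε w) w.1 v s x).card) = _
    rw [hw]
    rfl
  rw [e1, e2]
  have hagr : ∀ (q q' : Cfg H S L) (η : Env H S), (∀ z ∈ Λ, q z = q' z) →
      Agr X (X.ball v R) (X.Op ε η) (X.Op ε η) q q' := by
    intro q q' η h
    refine ⟨fun z hz => h z ?_, fun _ _ _ _ => Iff.rfl⟩
    rw [← Finset.mem_coe, hΛ]
    exact hz
  have hGdep : ∀ (x' : L) (q q' : Cfg H S L) (η : Env H S), (∀ z ∈ Λ, q z = q' z) →
      Gxy X b v s x' y (q, η) = Gxy X b v s x' y (q', η) := by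
    intro x' q q' η h
    unfold Gxy
    show _ * (ind (q v s = x') * ind (X.tau (q (X.nb v s) (X.bar s)) = y)) =
      _ * (ind (q' v s = x') * ind (X.tau (q' (X.nb v s) (X.bar s)) = y))
    rw [h v hvΛ, h _ hwΛ]
  rw [C.star v Λ hPC (fun w => Gxy X b v s x y w * Fa X P v s x y i ψ (X.Op ε w.2) w.1)
      ((meas_Gxy X hb v s x y).mul (C.meas (Fa X P v s x y i ψ) (X.ball v R) hfin
        (fun O O' f f' h => Fa_loc X C.locb hR.ge h s x y i ψ) ε).2)
      (fun q q' η h => by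
        show Gxy X b v s x y (q, η) * Fa X P v s x y i ψ (X.Op ε η) q =
          Gxy X b v s x y (q', η) * Fa X P v s x y i ψ (X.Op ε η) q'
        rw [hGdep x q q' η h, Fa_loc X C.locb hR.ge (hagr q q' η h) s x y i ψ]),
    C.star v Λ hPC (fun w => Gxy X b v s y y w * Fb X P v s x i ψ (X.Op ε w.2) w.1)
      ((meas_Gxy X hb v s y y).mul (C.meas (Fb X P v s x i ψ) (X.ball v R) hfin
        (fun O O' f f' h => Fb_loc X C.locb hR.ge h s x i ψ) ε).2)
      (fun q q' η h => by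
        show Gxy X b v s y y (q, η) * Fb X P v s x i ψ (X.Op ε η) q =
          Gxy X b v s y y (q', η) * Fb X P v s x i ψ (X.Op ε η) q'
        rw [hGdep y q q' η h, Fb_loc X C.locb hR.ge (hagr q q' η h) s x i ψ])]
  refine lintegral_congr fun η => ?_
  unfold Sys.starAvg
  congr 1
  by_cases hO : X.Op ε η v s
  · -- open: both integrands vanish
    have hb1 : b (η (v, s), η (X.rev (v, s))) = 0 := hb0 _ hO
    have h1 : ∀ (x' : L) (q : Cfg H S L), Gxy X b v s x' y (q, η) = 0 := by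
      intro x' q
      unfold Gxy
      show b (η (v, s), η (X.rev (v, s))) * _ = 0
      rw [hb1, zero_mul]
    congr 1
    funext q
    rw [h1 x q, h1 y q, zero_mul, zero_mul]
  -- closed
  obtain ⟨O, hOd⟩ : ∃ O : Edges H S, O = X.Op ε η := ⟨_, rfl⟩
  obtain ⟨B, hBd⟩ : ∃ B : ℝ≥0∞, B = b (η (v, s), η (X.rev (v, s))) := ⟨_, rfl⟩
  obtain ⟨F', hF'⟩ : ∃ F' : Cfg H S L → ℝ≥0∞, F' = fun q =>
      ind (X.tau (q (X.nb v s) (X.bar s)) = y) * ψ (X.AS P O q v s x).card := ⟨_, rfl⟩
  have hSym : X.Sym O := by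
    rw [hOd]
    exact fun a c => Op_symm X ε η a c
  have hBij := hB H S L X P O Λ v s x y i F' hSym (by rw [hOd]; exact hO) hxy (fun z hz => by
    rw [hmem]
    omega)
  show X.starSum Λ (X.Op ε η)
      (fun q => Gxy X b v s x y (q, η) * Fa X P v s x y i ψ (X.Op ε η) q) =
    X.starSum Λ (X.Op ε η) (fun q => Gxy X b v s y y (q, η) * Fb X P v s x i ψ (X.Op ε η) q)
  rw [← hOd]
  -- the move does not change the other end
  have hfix : ∀ q : Cfg H S L, X.MA O (Λ : Set H) q → q v s = x → i ∈ X.AS P O q v s y →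
      X.TRi P O i v s y q (X.nb v s) = q (X.nb v s) := by
    intro q hq hqx hi
    obtain ⟨O₁, hO₁⟩ : ∃ O₁ : Edges H S, O₁ = X.inside (Λ : Set H) O := ⟨_, rfl⟩
    have hA : Agr X (X.ball v R) O O₁ q q := by
      refine ⟨fun _ _ => rfl, fun z r hz hr => ?_⟩
      rw [hO₁]
      unfold Sys.inside
      rw [hΛ]
      exact ⟨fun h => ⟨h, hz, hr⟩, fun h => h.1⟩
    have hav : X.Av O P.M q (2 * (i.1 : ℕ) + 1) v s y i.2 := by
      have hi' := hi
      simp only [Sys.AS, Finset.mem_filter, Finset.mem_univ, true_and] at hi'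
      exact hi'
    have hilt := i.1.isLt
    have hav1 : X.Av O₁ P.M q (2 * (i.1 : ℕ) + 1) v s y i.2 :=
      ((C.locb O O₁ q q v R hA s y i.2).2.1 _ _ (by omega)).1 hav
    have hMA1 : X.MA O₁ (X.Sd v s) q := by
      intro z r _ _ hzr
      rw [hO₁] at hzr
      exact hq z r hzr.2.1 hzr.2.2 hzr.1
    have hyx : y ≠ q v s := by
      rw [hqx]
      exact hxy.symm
    have h3 := ((hT H S L X O₁ O₁ P.M (2 * (i.1 : ℕ) + 1) v s y i.2 q q hyx hMA1
      (fun _ _ => rfl) (fun _ _ _ _ => Iff.rfl)).2 hav1).1 (X.nb v s) (X.nb_notMem_Sd v s)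
    have h4 : X.TR O (2 * (i.1 : ℕ) + 1) v s y i.2 q (X.nb v s) =
        X.TR O₁ (2 * (i.1 : ℕ) + 1) v s y i.2 q (X.nb v s) :=
      (C.locb O O₁ q q v R hA s y i.2).2.2.2.2 _ _ (by
        rw [X.dist_nb_self]
        omega)
    unfold Sys.TRi
    rw [h4, h3]
  classical
  have s1 : X.starSum Λ O (fun q => Gxy X b v s x y (q, η) * Fa X P v s x y i ψ O q) =
      B * X.starSum Λ O (fun q =>
        if q v s = x ∧ i ∈ X.AS P O q v s y then F' (X.TRi P O i v s y q) else 0) := by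
    unfold Sys.starSum
    rw [Finset.mul_sum]
    refine Finset.sum_congr rfl fun f _ => ?_
    by_cases hm : X.MA O (Λ : Set H) (X.glue Λ f)
    · rw [if_pos hm, if_pos hm]
      obtain ⟨q, hq⟩ : ∃ q : Cfg H S L, q = X.glue Λ f := ⟨_, rfl⟩
      rw [← hq] at hm ⊢
      unfold Gxy Fa
      show b (η (v, s), η (X.rev (v, s))) * (ind (q v s = x) *
        ind (X.tau (q (X.nb v s) (X.bar s)) = y)) * (ind (i ∈ X.AS P O q v s y) *
          ψ (X.AS P O (X.TRi P O i v s y q) v s x).card) =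
        B * (if q v s = x ∧ i ∈ X.AS P O q v s y then F' (X.TRi P O i v s y q) else 0)
      rw [← hBd]
      by_cases h1 : q v s = x
      · by_cases h2 : i ∈ X.AS P O q v s y
        · rw [if_pos ⟨h1, h2⟩, ind_true h1, ind_true h2, hF']
          show _ = B * (ind (X.tau (X.TRi P O i v s y q (X.nb v s) (X.bar s)) = y) *
            ψ (X.AS P O (X.TRi P O i v s y q) v s x).card)
          rw [hfix q hm h1 h2]
          ring
        · rw [if_neg (fun h => h2 h.2), ind_false h2]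
          ring
      · rw [if_neg (fun h => h1 h.1), ind_false h1]
        ring
    · rw [if_neg hm, if_neg hm, mul_zero]
  have s2 : X.starSum Λ O (fun q => Gxy X b v s y y (q, η) * Fb X P v s x i ψ O q) =
      B * X.starSum Λ O (fun q =>
        if q v s = y ∧ i ∈ X.AS P O q v s x then F' q else 0) := by
    unfold Sys.starSum
    rw [Finset.mul_sum]
    refine Finset.sum_congr rfl fun f _ => ?_
    by_cases hm : X.MA O (Λ : Set H) (X.glue Λ f)
    · rw [if_pos hm, if_pos hm]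
      obtain ⟨q, hq⟩ : ∃ q : Cfg H S L, q = X.glue Λ f := ⟨_, rfl⟩
      rw [← hq] at hm ⊢
      unfold Gxy Fb
      show b (η (v, s), η (X.rev (v, s))) * (ind (q v s = y) *
        ind (X.tau (q (X.nb v s) (X.bar s)) = y)) * (ind (i ∈ X.AS P O q v s x) *
          ψ (X.AS P O q v s x).card) =
        B * (if q v s = y ∧ i ∈ X.AS P O q v s x then F' q else 0)
      rw [← hBd]
      by_cases h1 : q v s = y
      · by_cases h2 : i ∈ X.AS P O q v s x
        · rw [if_pos ⟨h1, h2⟩, ind_true h1, ind_true h2, hF']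
          ring
        · rw [if_neg (fun h => h2 h.2), ind_false h2]
          ring
      · rw [if_neg (fun h => h1 h.1), ind_false h1]
        ring
    · rw [if_neg hm, if_neg hm, mul_zero]
  rw [s1, s2]
  congr 1

end Pool.Agent.Helper33.OE
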