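import Pool.Agent.Helper78.OE.GoalsC3
import Pool.Agent.Helper33.OE.TRL

/-!
# Project OE, packet CHM: measurability of the change of the static update
-/

open MeasureTheory Pool.Agent.Helper73.OE Pool.Agent.Helper78.OE
open scoped ENNReal

namespace Pool.Agent.Helper33.OE

variable {H S L : Type} [Group H] (X : Sys H S L)

theorem ball_nb_subset (v : H) (s : S) (r : ℕ) : X.ball (X.nb v s) r ⊆ X.ball v (r + 1) := by
  intro z hz
  rw [X.mem_ball] at hz ⊢
  have h1 := X.dist_le_nb z v s
  rw [X.dist_comm z v, X.dist_comm z (X.nb v s)] at h1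
  omega

/-- The update at `z` sees only a ball. -/
theorem upd_loc [Fintype L] (hL : LOCB X) (P : Par) (v : H) (s : S) (u : ℕ) (z : H)
    {O O' : Edges H S} {f f' : Cfg H S L} {R : ℕ} (hR : 10 * (P.J + P.M + 10) + X.dist v z ≤ R)
    (h : Agr X (X.ball v R) O O' f f') : X.Upd P O v s u f z = X.Upd P O' v s u f' z := by
  have hv : f v = f' v := h.1 v (by
    rw [X.mem_ball, X.dist_self]
    exact Nat.zero_le _)
  have hw : f (X.nb v s) = f' (X.nb v s) := h.1 _ (by
    rw [X.mem_ball, X.dist_nb_self]
    omega)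
  have hz : f z = f' z := h.1 z (by
    rw [X.mem_ball]
    omega)
  have hC : X.Cheap P O v s u f = X.Cheap P O' v s u f' := by
    funext i
    apply propext
    unfold Sys.Cheap
    rw [hv, hw, (hL O O' f f' v R h s (X.tau (f' (X.nb v s) (X.bar s))) (f' v s)).2.2.1 P
      (by omega), (hL O O' _ _ v _ (agr_TRi X hL (le_trans (Nat.le_add_right _ _) hR) h i s
        (X.tau (f' (X.nb v s) (X.bar s)))) s (f' v s) (f' v s)).2.2.1 P le_rfl]
  unfold Sys.Upd
  rw [hC, hv, hw]
  by_cases h1 : X.tau (f' (X.nb v s) (X.bar s)) = f' v s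
  · rw [if_pos h1, if_pos h1, hz]
  rw [if_neg h1, if_neg h1]
  by_cases h2 : ∃ i, X.Cheap P O' v s u f' i
  · rw [dif_pos h2, dif_pos h2]
    unfold Sys.TRi
    refine (hL O O' f f' v R h s _ _).2.2.2.2 _ z ?_
    have := h2.choose.1.isLt
    omega
  · rw [dif_neg h2, dif_neg h2]
    unfold Sys.flip
    have hd : X.dist (X.nb v s) z ≤ X.dist v z + 1 := by
      have h3 := X.dist_nb_le z v s
      rw [X.dist_comm z v, X.dist_comm z (X.nb v s)] at h3
      exact h3
    rw [hz, (hL O O' f f' (X.nb v s) (X.dist v z + 2) (h.mono X (fun a ha =>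
      X.ball_mono v (by omega) (ball_nb_subset X v s _ ha))) (X.bar s) (X.tau (f' v s))
      (f' v s)).2.2.2.1 (X.dist (X.nb v s) z) z (by omega)]

theorem measSet_Cl (ε : ℝ) (v : H) (s : S) :
    MeasurableSet {w : St H S L × Seeds H S | X.Cl ε w.1.2 v s} := by
  have h1 : ∀ e : H × S, Measurable fun w : St H S L × Seeds H S => (((w.1.2 e).1 : ℝ) ^ 2) := by
    intro e
    have h2 : Measurable fun w : St H S L × Seeds H S => w.1.2 e :=
      (measurable_pi_apply e).comp (measurable_snd.comp measurable_fst)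
    exact (measurable_subtype_coe.comp (measurable_fst.comp h2)).pow_const 2
  exact (measurableSet_le (h1 (v, s)) measurable_const).inter
    (measurableSet_le (h1 (X.rev (v, s))) measurable_const)

/-- Measurability of the change of the static update at `z`. -/
theorem chm [Fintype S] [Fintype L] [Countable H] (hM : MEAS X) (hL : LOCB X) : CHM X := by
  intro P ε ε' v s z
  have hU : ∀ n : ℕ, MeasurableSet {w : St H S L × Seeds H S |
      X.Upd P (X.Op ε w.1.2) v s n w.1.1 z ≠ w.1.1 z} := by
    intro n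
    have h1 := (hM (fun O f => (X.Upd P O v s n f z ≠ f z : Prop))
      (X.ball v (10 * (P.J + P.M + 10) + X.dist v z)) (X.finite_ball v _)
      (fun O O' f f' h => by
        have hz : f z = f' z := h.1 z (by
          rw [X.mem_ball]
          omega)
        show (X.Upd P O v s n f z ≠ f z) = (X.Upd P O' v s n f' z ≠ f' z)
        rw [upd_loc X hL P v s n z le_rfl h, hz]) ε).2
    exact measurableSet_setOfPred.2 (h1.comp measurable_fst)
  have hsd : ∀ n : ℕ, MeasurableSet {w : St H S L × Seeds H S | Sys.sd P w.2 (v, s) = n} := by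
    intro n
    have h1 : Measurable fun w : St H S L × Seeds H S => Sys.sd P w.2 (v, s) := by
      unfold Sys.sd
      have h2 : Measurable fun w : St H S L × Seeds H S => ((w.2 (v, s) : unitInterval) : ℝ) :=
        measurable_subtype_coe.comp ((measurable_pi_apply (v, s)).comp measurable_snd)
      exact Nat.measurable_floor.comp (h2.const_mul _)
    exact h1 (measurableSet_singleton n)
  have hPos : MeasurableSet {w : St H S L × Seeds H S | X.Pos w.1.2 (v, s)} := by
    have h1 : ∀ e : H × S, Measurable fun w : St H S L × Seeds H S => ((w.1.2 e).2 : ℝ) := by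
      intro e
      have h2 : Measurable fun w : St H S L × Seeds H S => w.1.2 e :=
        (measurable_pi_apply e).comp (measurable_snd.comp measurable_fst)
      exact measurable_subtype_coe.comp (measurable_snd.comp h2)
    exact measurableSet_lt (h1 (v, s)) (h1 (X.rev (v, s)))
  have hSi : MeasurableSet {w : St H S L × Seeds H S | X.Si ε ε' w.1.2 v s} :=
    (measSet_Cl X ε v s).inter (measSet_Cl X ε' v s).compl
  have he : {w : St H S L × Seeds H S | X.ChSt P ε ε' w.1.1 w.1.2 w.2 v s z} =
      ⋃ n : ℕ, {w | Sys.sd P w.2 (v, s) = n} ∩ ({w | X.Si ε ε' w.1.2 v s} ∩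
        ({w | X.Pos w.1.2 (v, s)} ∩ {w | X.Upd P (X.Op ε w.1.2) v s n w.1.1 z ≠ w.1.1 z})) := by
    ext w
    simp only [Set.mem_iUnion]
    constructor
    · intro h
      exact ⟨Sys.sd P w.2 (v, s), rfl, h.1, h.2.1, h.2.2⟩
    · rintro ⟨n, hn, h1, h2, h3⟩
      have hn' : Sys.sd P w.2 (v, s) = n := hn
      refine ⟨h1, h2, ?_⟩
      rw [hn']
      exact h3
  rw [he]
  exact MeasurableSet.iUnion fun n => (hsd n).inter (hSi.inter (hPos.inter (hU n)))

end Pool.Agent.Helper33.OE
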